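import Pool.Agent.H384R3.SPk.Defs2

set_option autoImplicit false

/-! Task F of project SPK384. -/

namespace Pool.Agent.H293R3.SPk

open Finset Pool.Agent.H384R3.SPk

/-- a geometric progression -/
def geo (N : ℕ) : Finset ℤ := (range N).image fun i => (2:ℤ) ^ i

theorem card_geo (N : ℕ) : (geo N).card = N := by
  rw [geo, card_image_of_injective, card_range]
  intro a b h
  exact Int.pow_right_injective (by norm_num) h

theorem geo_pos (N : ℕ) : ∀ a ∈ geo N, 0 < a := by
  intro a ha
  obtain ⟨i, -, rfl⟩ := mem_image.1 ha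
  positivity

theorem card_prodset (N n : ℕ) (hn : 1 ≤ n) :
    (prodset fun _ : Fin n => geo N).card ≤ n * N := by
  have hsub : (prodset fun _ : Fin n => geo N) ⊆ (range (n * N)).image fun i => (2:ℤ) ^ i := by
    intro x hx
    obtain ⟨f, hf, rfl⟩ := mem_image.1 hx
    rw [Fintype.mem_piFinset] at hf
    have h1 : ∀ i, ∃ e : ℕ, e < N ∧ (2:ℤ) ^ e = f i := by
      intro i
      obtain ⟨e, he, h⟩ := mem_image.1 (hf i)
      exact ⟨e, mem_range.1 he, h⟩
    choose e he1 he2 using h1
    refine mem_image.2 ⟨∑ i, e i, ?_, ?_⟩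
    · rw [mem_range]
      have : Nonempty (Fin n) := ⟨⟨0, hn⟩⟩
      calc ∑ i, e i < ∑ _i : Fin n, N :=
            sum_lt_sum_of_nonempty univ_nonempty fun i _ => he1 i
        _ = n * N := by simp
    · rw [← prod_pow_eq_pow_sum]
      exact prod_congr rfl fun i _ => he2 i
  calc (prodset fun _ : Fin n => geo N).card ≤ _ := card_le_card hsub
    _ ≤ (range (n * N)).card := card_image_le
    _ = n * N := card_range _

theorem card_sumset (N k : ℕ) : (sumset k (geo N)).card ≤ N.multichoose k := by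
  classical
  have hsub : sumset k (geo N) ⊆ (univ : Finset (Sym (Fin N) k)).image
      fun s : Sym (Fin N) k => (Multiset.map (fun j : Fin N => (2:ℤ) ^ (j : ℕ)) s.1).sum := by
    intro x hx
    obtain ⟨f, hf, rfl⟩ := mem_image.1 hx
    rw [Fintype.mem_piFinset] at hf
    have h1 : ∀ i, ∃ e : Fin N, (2:ℤ) ^ (e : ℕ) = f i := by
      intro i
      obtain ⟨e, he, h⟩ := mem_image.1 (hf i)
      exact ⟨⟨e, mem_range.1 he⟩, h⟩
    choose e he2 using h1
    refine mem_image.2 ⟨⟨(univ : Finset (Fin k)).val.map e, by simp⟩, mem_univ _, ?_⟩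
    change (Multiset.map (fun j : Fin N => (2:ℤ) ^ (j : ℕ))
      (Multiset.map e (univ : Finset (Fin k)).val)).sum = _
    rw [Multiset.map_map]
    change ∑ i, (2:ℤ) ^ ((e i : ℕ)) = _
    exact sum_congr rfl fun i _ => he2 i
  calc (sumset k (geo N)).card ≤ _ := card_le_card hsub
    _ ≤ (univ : Finset (Sym (Fin N) k)).card := card_image_le
    _ = N.multichoose k := by rw [card_univ, Sym.card_sym_fin_eq_multichoose]

theorem taskF : TaskF := by
  intro k n hk hn β hβ h
  have key : ∀ N : ℕ, 1 ≤ N → (k.factorial : ℝ) ≤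
      (1 + (k : ℝ) / N) ^ k * (n : ℝ) ^ ((k : ℝ) * β) := by
    intro N hN
    have hN0 : (0:ℝ) < N := by exact_mod_cast hN
    have hn0 : (0:ℝ) < n := by exact_mod_cast (by omega : 0 < n)
    have h1 := h (geo N) (by rw [← card_pos, card_geo]; omega) (geo_pos N)
    rw [card_geo] at h1
    have h2 : ((prodset fun _ : Fin n => geo N).card : ℝ) ≤ n * N := by
      exact_mod_cast card_prodset N n (by omega)
    have h3 : ((sumset k (geo N)).card : ℝ) ≤ ((N : ℝ) + k) ^ k / k.factorial := by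
      have h4 : ((sumset k (geo N)).card : ℝ) ≤ ((N + k - 1).choose k : ℝ) := by
        exact_mod_cast (card_sumset N k).trans (Nat.multichoose_eq N k).le
      have h5 : ((N + k - 1).choose k : ℝ) ≤ ((N + k).choose k : ℝ) := by
        exact_mod_cast Nat.choose_le_choose k (by omega)
      have h6 := Nat.choose_le_pow_div (α := ℝ) k (N + k)
      push_cast at h6
      exact h4.trans (h5.trans h6)
    have hkb : 0 ≤ (k : ℝ) * β := by positivity
    have h7 : (N : ℝ) ^ ((k : ℝ) * (1 + β)) ≤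
        (((N : ℝ) + k) ^ k / k.factorial) * ((n : ℝ) * N) ^ ((k : ℝ) * β) := by
      refine h1.trans ?_
      gcongr
    have h8 : (N : ℝ) ^ ((k : ℝ) * (1 + β)) = (N : ℝ) ^ k * (N : ℝ) ^ ((k : ℝ) * β) := by
      rw [mul_add, mul_one, Real.rpow_add hN0, Real.rpow_natCast]
    rw [h8, Real.mul_rpow hn0.le hN0.le] at h7
    have hNb : 0 < (N : ℝ) ^ ((k : ℝ) * β) := Real.rpow_pos_of_pos hN0 _
    have hf : (0:ℝ) < k.factorial := by exact_mod_cast Nat.factorial_pos k
    have h9 : (N : ℝ) ^ k ≤ (((N : ℝ) + k) ^ k / k.factorial) * (n : ℝ) ^ ((k : ℝ) * β) := by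
      refine le_of_mul_le_mul_right ?_ hNb
      calc _ ≤ _ := h7
        _ = _ := by ring
    have h10 : (1 + (k : ℝ) / N) ^ k = ((N : ℝ) + k) ^ k / (N : ℝ) ^ k := by
      rw [← div_pow]
      congr 1
      field_simp
    rw [h10]
    have hNk : 0 < (N : ℝ) ^ k := by positivity
    rw [div_mul_eq_mul_div, le_div_iff₀ hNk]
    rw [div_mul_eq_mul_div, le_div_iff₀ hf] at h9
    linarith
  have hlim : Filter.Tendsto (fun N : ℕ => (1 + (k : ℝ) / N) ^ k * (n : ℝ) ^ ((k : ℝ) * β))
      Filter.atTop (nhds ((1 + 0) ^ k * (n : ℝ) ^ ((k : ℝ) * β))) := by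
    refine Filter.Tendsto.mul_const _ (Filter.Tendsto.pow ?_ k)
    exact tendsto_const_nhds.add (tendsto_const_div_atTop_nhds_zero_nat _)
  have := ge_of_tendsto hlim (Filter.eventually_atTop.2 ⟨1, fun N hN => key N hN⟩)
  simpa using this

end Pool.Agent.H293R3.SPk
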